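import Mathlib
import Pool.Agent.H.MP_8e06fd_an.B

namespace Pool.Agent.Results.MP_8e06fd_an.Yes
open Set Filter Topology Pool.Agent.H.MP_8e06fd_an

lemma zero_fun (A : Set II) (hA : IsClosed A) :
    ∃ v : CC, (∀ s, 0 ≤ v s ∧ v s ≤ 1) ∧ ∀ s, v s = 0 ↔ s ∈ A := by
  rcases A.eq_empty_or_nonempty with rfl | hne
  · exact ⟨1, by simp, by simp⟩
  · refine ⟨⟨fun s => min 1 (Metric.infDist s A),
      continuous_const.min (Metric.continuous_infDist_pt A)⟩, fun s => ⟨?_, min_le_left _ _⟩,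
      fun s => ?_⟩
    · exact le_min zero_le_one Metric.infDist_nonneg
    · rw [hA.mem_iff_infDist_zero hne]
      change min 1 (Metric.infDist s A) = 0 ↔ _
      constructor
      · intro h
        rcases min_choice 1 (Metric.infDist s A) with h1 | h1
        · rw [h1] at h; norm_num at h
        · rwa [h1] at h
      · intro h; rw [h]; simp

lemma params (M : Set II) (hM : M.Nonempty) : ∃ b κ l : ℝ, κ ≠ 0 ∧ 0 ≤ l ∧
    (∀ y, -l ≤ y → y ≤ 1 → b + κ * y ∈ II) ∧
    (∀ s : II, -l ≤ (s - b) / κ → (s - b) / κ ≤ 0 → s ∈ M) ∧ (l = 1 ∨ interior M = ∅) := by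
  obtain ⟨t, δ, l, hδ, hl0, hl1, h1, h2⟩ : ∃ (t : II) (δ l : ℝ), 0 < δ ∧ 0 ≤ l ∧ l ≤ 1 ∧
      (∀ s : II, |(s : ℝ) - t| ≤ δ * l → s ∈ M) ∧ (l = 1 ∨ interior M = ∅) := by
    rcases (interior M).eq_empty_or_nonempty with h | ⟨t, ht⟩
    · obtain ⟨t, ht⟩ := hM
      refine ⟨t, 1, 0, one_pos, le_rfl, zero_le_one, fun s hs => ?_, Or.inr h⟩
      have : (s : ℝ) = t := by simpa [sub_eq_zero] using hs
      rwa [Subtype.ext this]
    · obtain ⟨δ, hδ, h⟩ := Metric.mem_nhds_iff.1 (mem_interior_iff_mem_nhds.1 ht)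
      refine ⟨t, δ / 2, 1, half_pos hδ, zero_le_one, le_rfl, fun s hs => h ?_, Or.inl rfl⟩
      rw [Metric.mem_ball, Subtype.dist_eq, Real.dist_eq]
      linarith
  have hη : 0 < min δ (1 / 4) := lt_min hδ (by norm_num)
  have hη1 : min δ (1 / 4) ≤ δ := min_le_left _ _
  have hη2 : min δ (1 / 4) ≤ 1 / 4 := min_le_right _ _
  set η := min δ (1 / 4)
  have ht0 := t.2.1
  have ht1 := t.2.2
  have main : ∀ κ : ℝ, |κ| = η → ∀ s : II, -l ≤ (s - (t + l * κ)) / κ →
      (s - (t + l * κ)) / κ ≤ 0 → s ∈ M := by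
    intro κ hκ s hs1 hs2
    have hκ0 : κ ≠ 0 := by rintro rfl; simp at hκ; linarith
    refine h1 s ?_
    have e : (s : ℝ) - t = κ * ((s - (t + l * κ)) / κ + l) := by field_simp; ring
    rw [e, abs_mul, hκ, abs_of_nonneg (by linarith)]
    exact mul_le_mul hη1 (by linarith) (by linarith) hδ.le
  rcases le_total (t : ℝ) (1 / 2) with h | h
  · refine ⟨t + l * η, η, l, hη.ne', hl0, fun y hy1 hy2 => ⟨?_, ?_⟩, main η (abs_of_pos hη), h2⟩
    · nlinarith
    · nlinarith
  · refine ⟨t + l * -η, -η, l, by linarith, hl0, fun y hy1 hy2 => ⟨?_, ?_⟩,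
      main (-η) (by rw [abs_neg, abs_of_pos hη]), h2⟩
    · nlinarith
    · nlinarith

theorem result (F : ℕ → Set unitInterval) (hF : ∀ k, IsClosed (F k)) (hne : (⋃ k, F k).Nonempty) :
    ∃ X : Submodule ℝ C(unitInterval, ℝ), IsClosed (X : Set C(unitInterval, ℝ)) ∧
      (¬ ∃ P : C(unitInterval, ℝ) →L[ℝ] C(unitInterval, ℝ), (∀ f, P f ∈ X) ∧ ∀ f ∈ X, P f = f) ∧
      Omega X = ⋃ k, F k := by
  set M := ⋃ k, F k with hM
  obtain ⟨b, κ, l, hκ, hl, hI, hd, hc⟩ := params M hne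
  obtain ⟨v, hv, hv0⟩ := zero_fun (interior M)ᶜ isOpen_interior.isClosed_compl
  choose u hu hu0 using fun k => zero_fun (F k) (hF k)
  have hvl : ∀ s, v s ≤ l := by
    intro s
    rcases hc with h | h
    · rw [h]; exact (hv s).2
    · rw [(hv0 s).2 (by rw [h]; simp)]; exact hl
  let ρ : CC := ⟨fun s => max (max 0 ((s - b) / κ)) (-l - (s - b) / κ), by fun_prop⟩
  have h0 : ∀ s, 0 ≤ ρ s := fun s => (le_max_left _ _).trans (le_max_left _ _)
  have hρ : ∀ s : II, ρ s = 0 ↔ -l ≤ (s - b) / κ ∧ (s - b) / κ ≤ 0 := by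
    intro s
    change max (max 0 ((s - b) / κ)) (-l - (s - b) / κ) = 0 ↔ _
    constructor
    · intro h
      have h1 := le_max_right (max 0 (((s : ℝ) - b) / κ)) (-l - (s - b) / κ)
      have h2 := (le_max_right 0 (((s : ℝ) - b) / κ)).trans
        (le_max_left (max 0 (((s : ℝ) - b) / κ)) (-l - (s - b) / κ))
      constructor <;> linarith
    · rintro ⟨h1, h2⟩
      rw [max_eq_left h2, max_eq_left (by linarith)]
  have hx1 : ∀ j, xx j ≤ 1 := fun j => by simpa [xx] using xx_le (Nat.zero_le j)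
  let p : ℕ → II := fun j => ⟨b + κ * xx j, hI _ (by linarith [xx_pos j]) (hx1 j)⟩
  have hw : ∀ y, (b + κ * y - b) / κ = y := fun y => by field_simp; ring
  have hp : ∀ j, ρ (p j) = xx j := by
    intro j
    change max (max 0 ((b + κ * xx j - b) / κ)) (-l - (b + κ * xx j - b) / κ) = _
    have := xx_pos j
    rw [hw, max_eq_right this.le, max_eq_left (by linarith)]
  let ψ : ℕ → CC := fun i => if i = 0 then 0 else if i = 1 then 1 else ⟨fun s => s, by fun_prop⟩
  have hψ : ∀ i s, 0 ≤ ψ i s ∧ ψ i s ≤ 1 := by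
    intro i s
    simp only [ψ]
    split_ifs
    · simp
    · simp
    · exact s.2
  have hy : ∀ k i s, -l ≤ u k s - v s * ψ i s ∧ u k s - v s * ψ i s ≤ 1 := by
    intro k i s
    have := hu k s
    have := hv s
    have := hψ i s
    have := hvl s
    constructor <;> nlinarith
  let φ : ℕ → ℕ → C(II, II) := fun k i =>
    ⟨fun s => ⟨b + κ * (u k s - v s * ψ i s), hI _ (hy k i s).1 (hy k i s).2⟩, by fun_prop⟩
  let θ : ℕ → C(II, II) := fun n => Nat.casesOn n (ContinuousMap.id _) fun n => φ (n / 3) (n % 3)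
  have hρφ : ∀ k i s, ρ (φ k i s) = 0 ↔ u k s - v s * ψ i s ≤ 0 := by
    intro k i s
    rw [hρ]
    change -l ≤ (b + κ * (u k s - v s * ψ i s) - b) / κ ∧
      (b + κ * (u k s - v s * ψ i s) - b) / κ ≤ 0 ↔ _
    rw [hw]
    exact ⟨fun h => h.2, fun h => ⟨(hy k i s).1, h⟩⟩
  refine mainB hp h0 θ rfl M (fun n t ht => ?_) (fun t ht => ?_)
  · cases n with
    | zero => exact fun h => ht (hd t ((hρ t).1 h).1 ((hρ t).1 h).2)
    | succ n =>
      intro h
      have h1 := (hρφ (n / 3) (n % 3) t).1 h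
      rw [(hv0 t).2 fun h => ht (interior_subset h)] at h1
      exact ht (mem_iUnion.2 ⟨n / 3, (hu0 _ t).1 (le_antisymm (by linarith) (hu _ t).1)⟩)
  · obtain ⟨k, hk⟩ := mem_iUnion.1 ht
    have huk := (hu0 k t).2 hk
    by_contra H
    push Not at H
    have H' : ∀ i < 3, ∀ᶠ s in 𝓝 t, u k s - v s * ψ i s = - (v t * ψ i t) := by
      intro i hi
      have e : θ (3 * k + i + 1) = φ k i := by
        change φ ((3 * k + i) / 3) ((3 * k + i) % 3) = _
        congr 1 <;> omega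
      have h1 := H (3 * k + i + 1) (by
        rw [e, hρφ, huk]
        have := hv t
        have := hψ i t
        nlinarith)
      rw [e] at h1
      filter_upwards [h1] with s hs
      have h2 : b + κ * (u k s - v s * ψ i s) = b + κ * (u k t - v t * ψ i t) :=
        congrArg Subtype.val hs
      rw [huk] at h2
      have := mul_left_cancel₀ hκ (add_left_cancel h2)
      linarith
    have e0 : ∀ s, ψ 0 s = 0 := fun s => rfl
    have e1 : ∀ s, ψ 1 s = 1 := fun s => rfl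
    have e2 : ∀ s, ψ 2 s = s := fun s => rfl
    have h1 : ∀ᶠ s in 𝓝 t, u k s = 0 := by
      filter_upwards [H' 0 (by norm_num)] with s hs
      simpa [e0] using hs
    have h2 : v t ≠ 0 := by
      intro h
      refine (hv0 t).1 h (mem_interior_iff_mem_nhds.2 ?_)
      filter_upwards [h1] with s hs using mem_iUnion.2 ⟨k, (hu0 k s).1 hs⟩
    have h3 : ∀ᶠ s in 𝓝 t, s = t := by
      filter_upwards [h1, H' 1 (by norm_num), H' 2 (by norm_num)] with s a1 a2 a3
      simp only [e1, e2, a1, mul_one, zero_sub, neg_inj] at a2 a3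
      rw [a2] at a3
      exact Subtype.ext (mul_left_cancel₀ h2 a3)
    obtain ⟨s, hs1, hs2⟩ := ((h3.filter_mono (nhdsWithin_le_nhds (s := {t}ᶜ))).and
      self_mem_nhdsWithin).exists
    exact hs2 hs1

end Pool.Agent.Results.MP_8e06fd_an.Yes
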